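import Mathlib
import Pool.Agent.H270R2.GEN.Defs
import Pool.Agent.Helper467.FP.P_ep
import Pool.Agent.Helper467.FP.P_E_contr
import Pool.Agent.Helper467.FP.P_n2_mul_le

/-! ROOM GEN, BLOCK 2, task CEN: the centre valued trace. -/

set_option autoImplicit false

open scoped ComplexOrder Topology BoundedContinuousFunction
open Filter

noncomputable section

namespace Pool.Agent.H270G.T_CEN

open Pool.Agent.H467F Pool.Agent.H735G Pool.Agent.H270G

variable {A : Type} [CStarAlgebra A] {τ : A →ₗ[ℂ] ℂ}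

theorem mem_Zc {z : A} : z ∈ Zc A ↔ ∀ y, z * y = y * z := by
  unfold Zc
  rw [StarSubalgebra.mem_centralizer_iff]
  constructor
  · intro hz y
    exact ((hz y (Set.mem_univ _)).1).symm
  · intro hz y _
    exact ⟨(hz y).symm, (hz (star y)).symm⟩

theorem isW_Zc (h : TW τ) : IsW τ (Zc A) := by
  intro x hx
  rw [mem_Zc]
  intro y
  have h0 : n2 τ (x * y - y * x) ≤ 0 := by
    refine le_of_forall_pos_le_add fun ε hε => ?_
    obtain ⟨z, hz, hxz⟩ := hx (ε / (2 * (‖y‖ + 1))) (by positivity)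
    have hz' := (mem_Zc.1 hz) y
    have e : x * y - y * x = (x - z) * y - y * (x - z) := by
      rw [sub_mul, mul_sub, hz']
      abel
    rw [e]
    have h1 := h.n2_sub_le ((x - z) * y) (y * (x - z))
    have h2 := (n2_mul_le h y (x - z)).1
    have h3 := (n2_mul_le h y (x - z)).2
    have h4 : (ε / (2 * (‖y‖ + 1))) * (2 * (‖y‖ + 1)) = ε := by
      field_simp
    have h5 : n2 τ (x - z) * (2 * (‖y‖ + 1)) ≤ ε := by
      rw [← h4]
      exact mul_le_mul_of_nonneg_right hxz.le (by positivity)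
    have h6 := n2_nonneg (τ : A → ℂ) (x - z)
    nlinarith
  have h1 := h.eq_zero (le_antisymm h0 (n2_nonneg _ _))
  exact sub_eq_zero.1 h1

theorem ezp (h : TW τ) : EZP τ := by
  have hW := isW_Zc h
  have hE := ep h (Zc A) hW
  have hcyc : ∀ x y, EZ τ (x * y) = EZ τ (y * x) := by
    intro x y
    have h1 : (0 : A) = E τ (Zc A) (x * y - y * x) := by
      refine hE.unique _ _ (zero_mem _) fun s hs => ?_
      rw [sub_zero, mul_sub, map_sub, sub_eq_zero]
      have hs' := (mem_Zc.1 hs) y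
      calc τ (s * (x * y)) = τ ((s * x) * y) := by rw [mul_assoc]
        _ = τ (y * (s * x)) := h.comm _ _
        _ = τ (s * (y * x)) := by rw [← mul_assoc, ← hs', mul_assoc]
    rw [hE.sub] at h1
    exact (sub_eq_zero.1 h1.symm)
  refine ⟨hW, hE.mem, ?_, hcyc, ?_, hE.add, hE.sub, hE.smul, hE.star, ?_, ?_, hE.trace, hE.n2_le,
    fun x => E_contr h _ hW x, ?_⟩
  · intro x y
    exact mem_Zc.1 (hE.mem x) y
  · intro u x
    rw [hcyc, ← mul_assoc, Unitary.coe_star_mul_self, one_mul]
  · intro x hx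
    exact hE.of_mem x (mem_Zc.2 hx)
  · intro z x hz
    exact hE.left z (mem_Zc.2 hz) x
  · intro x y hy hz
    exact hE.unique x y (mem_Zc.2 hy) fun s hs => hz s (mem_Zc.1 hs)

end Pool.Agent.H270G.T_CEN
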